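import Mathlib
import Pool.Agent.MP_983df8_al.Main

namespace Pool.Agent.Results.MP_983df8_al.AltThree

open Pool.Agent.MP_983df8_al

theorem result (π : Set ℕ) (G : Type*) [Group G] [Finite G] (H : Subgroup G)
    (hD : IsD π G) (hH : IsHall π H) (hR : RadicalTrivial (G ⧸ OPi π G))
    (hA : FactorsAlt G ∨ (SocleAlt (G ⧸ OPi π G) ∧ Group.IsSolvable H)) :
    ∃ x y : G, OPi π G = H ⊓ conjBy H x ⊓ conjBy H y :=
  main_alt hD hH hR hA

end Pool.Agent.Results.MP_983df8_al.AltThree
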