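import Mathlib
import Pool.Agent.MP_983df8_al.FourN

namespace Pool.Agent.Results.MP_983df8_al.FourConj

open Pool.Agent.MP_983df8_al

theorem result (π : Set ℕ) (G : Type*) [Group G] [Finite G] (H : Subgroup G)
    (hD : IsD π G) (hH : IsHall π H)
    (hA : (Group.IsSolvable H ∧ SocleLin π (G ⧸ Rad G)) ∨ (FactorsAlt G ∧ (2 ∉ π ∨ 3 ∉ π))) :
    ∃ x y z : G, OPi π G = H ⊓ conjBy H x ⊓ conjBy H y ⊓ conjBy H z :=
  hA.elim (fun h => have := h.1; main_fourN hD hH h.2) fun h => main_four hD hH (Or.inr h)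

end Pool.Agent.Results.MP_983df8_al.FourConj
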